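import Pool.Agent.H73.KG.Stmts2

/-! # Project KG, module OSL: the telescoping lemma -/

set_option autoImplicit false
set_option linter.unusedSectionVars false
set_option linter.unusedVariables false

open MeasureTheory Set Filter Topology
open scoped ContDiff

namespace Pool.Agent.H73.KG

open Pool.Agent.H84 Pool.Agent.H84.Sym Pool.Agent.H84.Sym.P2x Pool.Agent.H19.KL

namespace OSLx

variable {E : Type} [NormedAddCommGroup E] [InnerProductSpace ℝ E]
    [FiniteDimensional ℝ E] [MeasurableSpace E] [BorelSpace E]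

theorem gc_D_of {f : E → ℝ} (hf : ContDiff ℝ 1 f) (hfg' : Gr (fun x => ‖fderiv ℝ f x‖)) (e : E) :
    GC (D e f) := by
  refine ⟨(contDiff_D (m := 0) hf (by norm_num) e).continuous, ?_⟩
  have h1 : Gr (fun x : E => ‖fderiv ℝ f x‖ * ‖e‖) := Gr.mul hfg' (Gr.of_bdd fun _ => le_rfl)
  refine Gr.of_le h1 fun x => ?_
  rw [abs_of_nonneg (by positivity : 0 ≤ ‖fderiv ℝ f x‖ * ‖e‖)]
  exact (fderiv ℝ f x).le_opNorm e

/-- Conditional means of functions of exponential growth. -/
theorem cav_diff_gr (S : Submodule ℝ E) {U f : E → ℝ} {t C : ℝ} (hU : Pot U t C)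
    (hf : ContDiff ℝ 1 f) (hfg : Gr f) (hfg' : Gr (fun x => ‖fderiv ℝ f x‖)) :
    ContDiff ℝ 1 (cav S U f) ∧
    ∀ (z ν : Sᗮ), D ν (cav S U f) z = cav S U (D (ν : E) f) z -
      (cav S U (fun x => f x * D (ν : E) U x) z - cav S U f z * cav S U (D (ν : E) U) z) := by
  have hρ0 := P4bx.rho_pos S hU
  obtain ⟨hρ1, hDρ⟩ := diff_pint S (F := fun _ => 1) hU contDiff_const (Gr.of_bdd fun _ => le_rfl)
    (by simp only [fderiv_fun_const, Pi.zero_apply, norm_zero]; exact Gr.of_bdd fun _ => le_rfl)
  have hDρ' : ∀ z ν : Sᗮ, D ν (pint S U (fun _ => 1)) z = -pint S U (D (ν : E) U) z := by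
    intro z ν
    rw [hDρ, ← P4bx.pint_neg]
    congr 1
    funext x
    simp [D]
  have hfG : GC f := ⟨hf.continuous, hfg⟩
  obtain ⟨hf1, hDf⟩ := diff_pint S hU hf hfg hfg'
  have hcav : cav S U f = fun z => pint S U f z * (pint S U (fun _ => 1) z)⁻¹ := by
    funext z
    rfl
  refine ⟨?_, fun z ν => ?_⟩
  · rw [hcav]
    exact hf1.mul (hρ1.inv fun z => (hρ0 z).ne')
  · have d1 : DifferentiableAt ℝ (pint S U f) z := hf1.differentiable (by norm_num) z
    have d2' : HasFDerivAt (fun z => (pint S U (fun _ => 1) z)⁻¹)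
        (-((pint S U (fun _ => 1) z) ^ 2)⁻¹ • fderiv ℝ (pint S U (fun _ => 1)) z) z :=
      (hasDerivAt_inv (hρ0 z).ne').comp_hasFDerivAt z
        (hρ1.differentiable (by norm_num) z).hasFDerivAt
    rw [hcav, D_mul d1 d2'.differentiableAt]
    have e2 : D ν (fun z => (pint S U (fun _ => 1) z)⁻¹) z =
        ((pint S U (fun _ => 1) z) ^ 2)⁻¹ * pint S U (D (ν : E) U) z := by
      have h4 : fderiv ℝ (pint S U (fun _ => 1)) z ν = -pint S U (D (ν : E) U) z := hDρ' z ν
      simp only [D]
      rw [d2'.fderiv, smul_apply, h4]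
      simp only [smul_eq_mul]
      ring
    have e3 : D ν (pint S U f) z = pint S U (D (ν : E) f) z -
          pint S U (fun x => f x * D (ν : E) U x) z := by
      rw [hDf z ν, ← P4bx.pint_sub S hU (gc_D_of hf hfg' _) (hfG.mul (P4bx.gc_D hU _))]
    rw [e2, e3]
    unfold cav
    have := (hρ0 z).ne'
    field_simp
    ring

theorem fb_eq (S : Submodule ℝ E) (U : E → ℝ) (z : Sᗮ) : fb S U z = P4bx.nsec S U z := rfl

theorem cv_fb (S : Submodule ℝ E) {U : E → ℝ} {t C : ℝ} (hU : Pot U t C) (F G : E → ℝ) (z : Sᗮ) :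
    cv (fb S U z) (fun x : S => F ((x : E) + (z : E))) (fun x : S => G ((x : E) + (z : E))) =
      cav S U (fun x => F x * G x) z - cav S U F z * cav S U G z := by
  unfold cv
  rw [fb_eq, P4bx.int_nsec S hU F z, P4bx.int_nsec S hU G z,
    P4bx.int_nsec S hU (fun x => F x * G x) z]

theorem li_shift (S : Submodule ℝ E) (z : Sᗮ) (c : S) :
    (li c : S → ℝ) = fun x : S => li (c : E) ((x : E) + (z : E)) := by
  funext x
  unfold li
  rw [inner_add_right, Submodule.inner_right_of_mem_orthogonal c.2 z.2, add_zero]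
  rfl

theorem gc_li (e : E) : GC (li e) := by
  refine ⟨continuous_const.inner continuous_id, ?_⟩
  have h1 : Gr (fun x : E => ‖e‖ * ‖x‖) := Gr.mul (Gr.of_bdd fun _ => le_rfl) Gr.nrm
  refine Gr.of_le h1 fun x => ?_
  rw [abs_of_nonneg (by positivity : 0 ≤ ‖e‖ * ‖x‖)]
  exact abs_real_inner_le_norm e x

theorem fderiv_li (e x : E) : fderiv ℝ (li e) x = innerSL ℝ e :=
  (innerSL ℝ e).hasFDerivAt.fderiv

/-- covariance with the square of a centred function -/
theorem cv_sq {U p k : E → ℝ} {t : ℝ} (hU : PP U t) (hp : GC p) (hk : GC k) (a : ℝ) :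
    cv U (fun x => (p x - a) ^ 2) k = cv U (fun x => p x * p x) k - 2 * a * cv U p k := by
  obtain ⟨⟨C, hP⟩, hpr⟩ := hU
  have hp2 : GC (fun x => p x * p x) := hp.mul hp
  have i1 := hp2.integrable hP
  have i2 := hp.integrable hP
  have i3 := hk.integrable hP
  have i4 := (hp2.mul hk).integrable hP
  have i5 := (hp.mul hk).integrable hP
  have e1 : ∫ x, (p x - a) ^ 2 * k x ∂(mu U) = (∫ x, p x * p x * k x ∂(mu U)) -
      2 * a * (∫ x, p x * k x ∂(mu U)) + a ^ 2 * ∫ x, k x ∂(mu U) := by
    have h : ∀ x, (p x - a) ^ 2 * k x = (p x * p x * k x - 2 * a * (p x * k x)) + a ^ 2 * k x :=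
      fun x => by ring
    simp only [h]
    have j1 : Integrable (fun x => p x * p x * k x - 2 * a * (p x * k x)) (mu U) :=
      i4.sub (i5.const_mul _)
    rw [integral_add j1 (i3.const_mul _), integral_sub i4 (i5.const_mul _),
      integral_const_mul, integral_const_mul]
  have e2 : ∫ x, (p x - a) ^ 2 ∂(mu U) = (∫ x, p x * p x ∂(mu U)) -
      2 * a * (∫ x, p x ∂(mu U)) + a ^ 2 := by
    have h : ∀ x, (p x - a) ^ 2 = (p x * p x - 2 * a * p x) + a ^ 2 := fun x => by ring
    simp only [h]
    have j1 : Integrable (fun x => p x * p x - 2 * a * p x) (mu U) := i1.sub (i2.const_mul _)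
    rw [integral_add j1 (integrable_const _),
      integral_sub i1 (i2.const_mul _), integral_const_mul]
    simp
  unfold cv
  rw [e1, e2]
  ring

/-- a gradient bound from the pointwise inequality -/
theorem grad_bound {g W U : E → ℝ} {B : ℝ} (hg : ∀ x X : E, 2 * fderiv ℝ g x X -
    fderiv ℝ (fderiv ℝ U) x X X ≤ W x) (hB : ∀ x, |W x| ≤ B)
    (hU : ∀ x v : E, fderiv ℝ (fderiv ℝ U) x v v ≤ ‖v‖ ^ 2) (x : E) :
    ‖fderiv ℝ g x‖ ≤ B + 1 := by
  have hB0 : 0 ≤ B := (abs_nonneg _).trans (hB x)
  refine ContinuousLinearMap.opNorm_le_bound _ (by positivity) fun v => ?_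
  have key : ∀ X : E, 2 * fderiv ℝ g x X ≤ B + ‖X‖ ^ 2 := by
    intro X
    have h1 := hg x X
    have h2 := hU x X
    have h3 := (le_abs_self _).trans (hB x)
    linarith
  have h1 : ∀ v : E, fderiv ℝ g x v ≤ (B + 1) * ‖v‖ := by
    intro v
    rcases eq_or_ne v 0 with rfl | hv
    · simp
    · have hv' : 0 < ‖v‖ := norm_pos_iff.2 hv
      have h2 := key ((‖v‖⁻¹) • v)
      rw [map_smul, norm_smul, norm_inv, norm_norm, inv_mul_cancel₀ hv'.ne', smul_eq_mul] at h2
      have h3 : fderiv ℝ g x v = ‖v‖ * (‖v‖⁻¹ * fderiv ℝ g x v) := by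
        field_simp
      rw [h3]
      nlinarith
  rw [Real.norm_eq_abs, abs_le]
  constructor
  · have := h1 (-v)
    rw [map_neg, norm_neg] at this
    linarith
  · exact h1 v

end OSLx

open OSLx

theorem osl_thm (hF : ∀ (E : Type) [NormedAddCommGroup E] [InnerProductSpace ℝ E]
    [FiniteDimensional ℝ E] [MeasurableSpace E] [BorelSpace E], OSFStmt E)
    (E : Type) [NormedAddCommGroup E] [InnerProductSpace ℝ E]
    [FiniteDimensional ℝ E] [MeasurableSpace E] [BorelSpace E] : OSLStmt E := by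
  intro U t hBP S κ _ c m g W K2 hOSI hK2c hK2b hHH
  obtain ⟨⟨⟨C, hP⟩, hpr⟩, hup⟩ := hBP
  obtain ⟨hg1, hWc, ⟨B, hB⟩, hin⟩ := hOSI
  obtain ⟨B2, hB2⟩ := hK2b
  have hU2 : ∀ x, ‖fderiv ℝ (fderiv ℝ U) x‖ ≤ 1 := fun x =>
    P4bx.bilin_bound _ (fun u v => (hP.smooth.contDiffAt.isSymmSndFDerivAt (by simp)).eq u v)
      (fun v => le_trans (by have := hP.pos; positivity) (hP.hess x v))
      (fun v => by simpa using hup x v) zero_le_one
  -- the marginal
  have hproj : ∀ v : E, ‖Sᗮ.orthogonalProjectionOnto v‖ ≤ ‖v‖ := by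
    intro v
    have := (Sᗮ.orthogonalProjectionOnto).le_opNorm v
    have h2 := Submodule.orthogonalProjectionOnto_norm_le (Sᗮ : Submodule ℝ E)
    nlinarith [norm_nonneg v]
  have hτU : ∀ x v : E, t * ‖Sᗮ.orthogonalProjectionOnto v‖ ^ 2 ≤
      fderiv ℝ (fderiv ℝ U) x v v := by
    intro x v
    refine le_trans ?_ (hP.hess x v)
    apply mul_le_mul_of_nonneg_left _ hP.pos.le
    exact pow_le_pow_left₀ (norm_nonneg _) (hproj v) 2
  obtain ⟨⟨C', hmgP⟩, hmg1, hmg2⟩ := mg_spec S hP hU2 hP.pos hτU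
  -- growth
  have hgrad := grad_bound hin hB hup
  have hgg' : Gr (fun x => ‖fderiv ℝ g x‖) :=
    Gr.of_bdd (A := B + 1) fun x => by rw [abs_of_nonneg (norm_nonneg _)]; exact hgrad x
  have hgg : Gr g := by
    have h1 : Gr (fun x : E => |g 0| + (B + 1) * ‖x‖) :=
      Gr.add (Gr.of_bdd fun _ => le_rfl) (Gr.mul (Gr.of_bdd fun _ => le_rfl) Gr.nrm)
    have hB0 : 0 ≤ B := (abs_nonneg _).trans (hB 0)
    refine Gr.of_le h1 fun x => ?_
    have h2 := convex_univ.norm_image_sub_le_of_norm_fderiv_le (𝕜 := ℝ)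
      (f := g) (fun x _ => hg1.differentiable (by norm_num) x) (fun x _ => hgrad x)
      (mem_univ (0 : E)) (mem_univ x)
    rw [sub_zero, Real.norm_eq_abs] at h2
    have h3 : |g x| ≤ |g 0| + |g x - g 0| := by
      have := abs_add_le (g 0) (g x - g 0)
      simpa using this
    rw [abs_of_nonneg (by positivity : 0 ≤ |g 0| + (B + 1) * ‖x‖)]
    linarith
  have hgG : GC g := ⟨hg1.continuous, hgg⟩
  have hWG : GC W := ⟨hWc, Gr.of_bdd hB⟩
  set f : κ → E → ℝ := fun i => li ((c i : S) : E) with hf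
  have hfG : ∀ i, GC (f i) := fun i => gc_li _
  have hf1 : ∀ i, ContDiff ℝ 1 (f i) := fun i => contDiff_const.inner ℝ contDiff_id
  have hfg' : ∀ i, Gr (fun x => ‖fderiv ℝ (f i) x‖) := fun i => by
    refine Gr.of_bdd (A := ‖((c i : S) : E)‖) fun x => ?_
    rw [abs_of_nonneg (norm_nonneg _), hf]
    simp only
    rw [fderiv_li, innerSL_apply_norm]
  have hff1 : ∀ i, ContDiff ℝ 1 (fun x => f i x * f i x) := fun i => (hf1 i).mul (hf1 i)
  have hffd : ∀ i x, fderiv ℝ (fun x => f i x * f i x) x =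
      (2 * f i x) • innerSL ℝ ((c i : S) : E) := by
    intro i x
    have h1 : HasFDerivAt (f i) (innerSL ℝ ((c i : S) : E)) x := (innerSL ℝ _).hasFDerivAt
    have h2 : fderiv ℝ (fun x => f i x * f i x) x = f i x • innerSL ℝ ((c i : S) : E) +
        f i x • innerSL ℝ ((c i : S) : E) := (h1.mul h1).fderiv
    rw [h2, two_mul, add_smul]
  have hffg' : ∀ i, Gr (fun x => ‖fderiv ℝ (fun x => f i x * f i x) x‖) := fun i => by
    have h1 : Gr (fun x : E => 2 * |f i x| * ‖((c i : S) : E)‖) :=
      Gr.mul (Gr.mul (Gr.of_bdd fun _ => le_rfl) (hfG i).abs.2) (Gr.of_bdd fun _ => le_rfl)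
    refine Gr.of_le h1 fun x => ?_
    rw [hffd, norm_smul, innerSL_apply_norm, Real.norm_eq_abs]
    simp only [abs_mul, abs_abs, abs_norm]
    exact le_rfl
  have hGrw : ∀ z : Sᗮ, cav S U g z + ∑ i, m i * cv (fb S U z) (li (c i)) (li (c i)) =
      cav S U g z + ∑ i, m i * (cav S U (fun x => f i x * f i x) z -
        cav S U (f i) z * cav S U (f i) z) := by
    intro z
    congr 1
    refine Finset.sum_congr rfl fun i _ => ?_
    rw [li_shift S z (c i), cv_fb S hP (li ((c i : S) : E)) (li ((c i : S) : E)) z]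
  obtain ⟨hcg1, hcg2⟩ := cav_diff_gr S hP hg1 hgg hgg'
  have hcf := fun i => cav_diff_gr S hP (hf1 i) (hfG i).2 (hfg' i)
  have hcff := fun i => cav_diff_gr S hP (hff1 i) ((hfG i).mul (hfG i)).2 (hffg' i)
  simp only [hGrw]
  refine ⟨?_, ?_, ?_, ?_⟩
  · exact hcg1.add (ContDiff.sum fun i _ => contDiff_const.mul
      ((hcff i).1.sub ((hcf i).1.mul (hcf i).1)))
  · refine Continuous.add ?_ hK2c
    have h1 := cont_pint S hP hWc hWG.2
    have h2 := cont_pint S hP (continuous_const (y := (1:ℝ))) (Gr.of_bdd fun _ => le_rfl)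
    exact h1.div h2 fun z => (P4bx.rho_pos S hP z).ne'
  · refine ⟨B + B2, fun z => (abs_add_le _ _).trans (add_le_add ?_ (hB2 z))⟩
    have hpz := P4bx.prob_nsec S hP z
    rw [← P4bx.int_nsec S hP W z]
    have h1 := norm_integral_le_of_norm_le_const (μ := mu (P4bx.nsec S U z))
      (f := fun x : S => W ((x : E) + (z : E))) (C := B)
      (Eventually.of_forall fun x => by rw [Real.norm_eq_abs]; exact hB _)
    rw [Real.norm_eq_abs] at h1
    simpa using h1
  · intro z ν
    have hpz := P4bx.prob_nsec S hP z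
    have hPz : PP (fb S U z) t := ⟨⟨_, P4bx.pot_nsec S hP z⟩, hpz⟩
    -- derivative of the left side
    have hder : HasFDerivAt (fun z : Sᗮ => cav S U g z + ∑ i, m i *
        (cav S U (fun x => f i x * f i x) z - cav S U (f i) z * cav S U (f i) z))
        (fderiv ℝ (cav S U g) z + ∑ i, m i • (fderiv ℝ (cav S U (fun x => f i x * f i x)) z -
          (cav S U (f i) z • fderiv ℝ (cav S U (f i)) z +
            cav S U (f i) z • fderiv ℝ (cav S U (f i)) z))) z := by
      refine (hcg1.differentiable (by norm_num) z).hasFDerivAt.add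
        (HasFDerivAt.fun_sum fun i _ => HasFDerivAt.const_mul (HasFDerivAt.sub
          (((hcff i).1.differentiable (by norm_num) z).hasFDerivAt) ?_) (m i))
      have h1 := ((hcf i).1.differentiable (by norm_num) z).hasFDerivAt
      exact h1.mul h1
    rw [hder.fderiv]
    have hap : (fderiv ℝ (cav S U g) z + ∑ i, m i • (fderiv ℝ (cav S U (fun x => f i x * f i x)) z -
          (cav S U (f i) z • fderiv ℝ (cav S U (f i)) z +
            cav S U (f i) z • fderiv ℝ (cav S U (f i)) z))) ν =
        D ν (cav S U g) z + ∑ i, m i * (D ν (cav S U (fun x => f i x * f i x)) z -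
          2 * cav S U (f i) z * D ν (cav S U (f i)) z) := by
      simp only [D, ContinuousLinearMap.add_apply, ContinuousLinearMap.sum_apply,
        ContinuousLinearMap.smul_apply, ContinuousLinearMap.sub_apply, smul_eq_mul]
      congr 1
      refine Finset.sum_congr rfl fun i _ => ?_
      ring
    rw [hap]
    set k : E → ℝ := D (ν : E) U with hk
    have hkG : GC k := P4bx.gc_D hP (ν : E)
    have hk1 : ContDiff ℝ 1 k := contDiff_D hP.smooth (by norm_num) (ν : E)
    have hcν : ∀ i, inner ℝ ((c i : S) : E) (ν : E) = (0:ℝ) := fun i =>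
      Submodule.inner_right_of_mem_orthogonal (c i).2 ν.2
    have hcav0 : cav S U (fun _ => (0:ℝ)) z = 0 := by
      unfold cav pint
      simp
    have hDf : ∀ i, D (ν : E) (f i) = fun _ => (0:ℝ) := by
      intro i
      funext x
      simp only [D, hf]
      rw [fderiv_li, innerSL_apply_apply, hcν i]
    have hDff : ∀ i, D (ν : E) (fun x => f i x * f i x) = fun _ => (0:ℝ) := by
      intro i
      funext x
      simp only [D]
      rw [hffd, smul_apply, innerSL_apply_apply, hcν i, smul_zero]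
    have e1 : ∀ i, D ν (cav S U (fun x => f i x * f i x)) z =
        -(cav S U (fun x => f i x * f i x * k x) z -
          cav S U (fun x => f i x * f i x) z * cav S U k z) := by
      intro i
      rw [(hcff i).2 z ν, hDff i, hcav0, zero_sub]
    have e2 : ∀ i, D ν (cav S U (f i)) z =
        -(cav S U (fun x => f i x * k x) z - cav S U (f i) z * cav S U k z) := by
      intro i
      rw [(hcf i).2 z ν, hDf i, hcav0, zero_sub]
    -- the inequality on the fibre
    set kz : S → ℝ := fun x => k ((x : E) + (z : E)) with hkz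
    set qz : S → ℝ := fun x => fderiv ℝ (fderiv ℝ U) ((x : E) + (z : E)) ν ν with hqz
    set gz : S → ℝ := fun x => g ((x : E) + (z : E)) with hgz
    set g1z : S → ℝ := fun x => D (ν : E) g ((x : E) + (z : E)) with hg1z
    set Wz : S → ℝ := fun x => W ((x : E) + (z : E)) with hWz
    have hfd : ∀ e x, fderiv ℝ (D e U) x = (ContinuousLinearMap.apply ℝ ℝ e).comp
        (fderiv ℝ (fderiv ℝ U) x) := by
      intro e x
      have h1 : DifferentiableAt ℝ (fderiv ℝ U) x :=
        ((hP.smooth.fderiv_right (m := 1) (by norm_num)).differentiable (by norm_num)) x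
      exact ((ContinuousLinearMap.apply ℝ ℝ e).hasFDerivAt.comp x h1.hasFDerivAt).fderiv
    have hkz1 : ContDiff ℝ 1 kz := G2aux.contDiff_shift S (z : E) hk1
    have hgz1 : ContDiff ℝ 1 gz := G2aux.contDiff_shift S (z : E) hg1
    have hqc : GC (fun x => fderiv ℝ (fderiv ℝ U) x (ν : E) (ν : E)) := by
      constructor
      · have h1 : Continuous (fderiv ℝ (fderiv ℝ U)) :=
          (hP.smooth.fderiv_right (m := 1) (by norm_num)).continuous_fderiv (by norm_num)
        exact (h1.clm_apply continuous_const).clm_apply continuous_const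
      · refine Gr.of_bdd (A := 1 * ‖(ν : E)‖ * ‖(ν : E)‖) fun x => ?_
        refine ((fderiv ℝ (fderiv ℝ U) x (ν : E)).le_opNorm (ν : E)).trans ?_
        apply mul_le_mul_of_nonneg_right _ (norm_nonneg _)
        exact ((fderiv ℝ (fderiv ℝ U) x).le_opNorm (ν : E)).trans
          (mul_le_mul_of_nonneg_right (hU2 x) (norm_nonneg _))
    have hkzG : GC kz := P4bx.gc_sec S hkG (z : E)
    have hfib := hF S (fb S U z) t hPz κ c m (K2 z) (hHH z) kz qz gz g1z Wz hkz1 hkzG.2 hgz1
      (P4bx.gc_sec S hgG (z : E)).2 (P4bx.gc_sec S hqc (z : E))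
      (P4bx.gc_sec S (gc_D_of hg1 hgg' (ν : E)) (z : E)) (P4bx.gc_sec S hWG (z : E)) (by
        intro x η
        have hfk : fderiv ℝ kz x η = fderiv ℝ (fderiv ℝ U) ((x : E) + (z : E)) (η : E) (ν : E) := by
          rw [(G2aux.hasFDerivAt_shift S (z : E)
            (hk1.differentiable (by norm_num) _)).fderiv, hk, hfd]
          rfl
        have hfg : fderiv ℝ gz x η = fderiv ℝ g ((x : E) + (z : E)) (η : E) := by
          rw [(G2aux.hasFDerivAt_shift S (z : E)
            (hg1.differentiable (by norm_num) _)).fderiv]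
          rfl
        have hfV : fderiv ℝ (fderiv ℝ (fb S U z)) x η η =
            fderiv ℝ (fderiv ℝ U) ((x : E) + (z : E)) (η : E) (η : E) := by
          have e : fderiv ℝ (fb S U z) = fun s : S =>
              (fderiv ℝ U ((s : E) + (z : E))).comp S.subtypeL := by
            ext s : 1
            have h1 : fderiv ℝ (fb S U z) s = fderiv ℝ (sec S U (z : E)) s := by
              unfold fb
              exact fderiv_add_const _
            rw [h1]
            exact G2aux.fderiv_VV hP S (z : E) s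
          have hd : DifferentiableAt ℝ (fderiv ℝ U) ((x : E) + (z : E)) :=
            (hP.smooth.fderiv_right (m := 1) (by norm_num)).differentiable (by norm_num) _
          have h2 := G2aux.hasFDerivAt_shift S (z : E) hd
          have h3 : HasFDerivAt (fun s : S => (fderiv ℝ U ((s : E) + (z : E))).comp S.subtypeL)
              (((ContinuousLinearMap.compL ℝ S E ℝ).flip S.subtypeL).comp
                ((fderiv ℝ (fderiv ℝ U) ((x : E) + (z : E))).comp S.subtypeL)) x :=
            ((ContinuousLinearMap.compL ℝ S E ℝ).flip S.subtypeL).hasFDerivAt.comp x h2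
          rw [e, h3.fderiv]
          rfl
        have h1 := hin ((x : E) + (z : E)) ((ν : E) + (η : E))
        have h3 := (hP.smooth.contDiffAt.isSymmSndFDerivAt
          (x := (x : E) + (z : E)) (by simp)).eq (ν : E) (η : E)
        simp only [map_add, ContinuousLinearMap.add_apply] at h1
        rw [hfk, hfg, hfV]
        simp only [hg1z, hqz, hWz, D]
        linarith)
    have hmn : ∀ i, mn (fb S U z) (c i) = cav S U (f i) z := by
      intro i
      unfold mn
      rw [li_shift S z (c i), fb_eq]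
      exact P4bx.int_nsec S hP (f i) z
    have hcvk : cv (fb S U z) kz kz = cav S U (fun x => k x * k x) z - cav S U k z * cav S U k z :=
      cv_fb S hP k k z
    have hcvg : cv (fb S U z) gz kz = cav S U (fun x => g x * k x) z - cav S U g z * cav S U k z :=
      cv_fb S hP g k z
    have hcvi : ∀ i, cv (fb S U z) (fun x => (li (c i) x - mn (fb S U z) (c i)) ^ 2) kz =
        (cav S U (fun x => f i x * f i x * k x) z - cav S U (fun x => f i x * f i x) z *
          cav S U k z) - 2 * cav S U (f i) z *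
          (cav S U (fun x => f i x * k x) z - cav S U (f i) z * cav S U k z) := by
      intro i
      rw [hmn i, cv_sq hPz (gc_li (c i)) hkzG]
      have h1 := cv_fb S hP (fun x => f i x * f i x) k z
      have h2 := cv_fb S hP (f i) k z
      have h3 : (li (c i) : S → ℝ) = fun x : S => f i ((x : E) + (z : E)) := li_shift S z (c i)
      rw [h3, h1, h2]
    have hi1 : ∫ x, g1z x ∂(mu (fb S U z)) = cav S U (D (ν : E) g) z :=
      P4bx.int_nsec S hP (D (ν : E) g) z
    have hi2 : ∫ x, qz x ∂(mu (fb S U z)) =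
        cav S U (fun x => fderiv ℝ (fderiv ℝ U) x ν ν) z :=
      P4bx.int_nsec S hP (fun x => fderiv ℝ (fderiv ℝ U) x ν ν) z
    have hi3 : ∫ x, Wz x ∂(mu (fb S U z)) = cav S U W z := P4bx.int_nsec S hP W z
    rw [hi1, hi2, hi3, hcvk, hcvg] at hfib
    simp only [hcvi] at hfib
    rw [hmg2 z ν, hcg2 z ν]
    simp only [e1, e2]
    have hs : ∑ i, m i * (-(cav S U (fun x => f i x * f i x * k x) z -
          cav S U (fun x => f i x * f i x) z * cav S U k z) -
          2 * cav S U (f i) z * -(cav S U (fun x => f i x * k x) z -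
            cav S U (f i) z * cav S U k z)) =
        -∑ i, m i * ((cav S U (fun x => f i x * f i x * k x) z -
          cav S U (fun x => f i x * f i x) z * cav S U k z) - 2 * cav S U (f i) z *
          (cav S U (fun x => f i x * k x) z - cav S U (f i) z * cav S U k z)) := by
      rw [← Finset.sum_neg_distrib]
      refine Finset.sum_congr rfl fun i _ => ?_
      ring
    rw [hs]
    have hk2 : cav S U (fun x => D (ν : E) U x ^ 2) z = cav S U (fun x => k x * k x) z := by
      congr 1
      funext x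
      rw [hk, sq]
    rw [hk2, ← hk]
    linarith

end Pool.Agent.H73.KG
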